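import Pool.Agent.Y703.CT.StmF
import Pool.Agent.Y153.CT.RAM

set_option autoImplicit false
set_option linter.unusedVariables false

/-! Project CT (helper703): from local solutions to local points (S_PT). -/

open scoped Classical

namespace Pool.Agent.Y674.CT

open WeierstrassCurve
open Pool.Agent.Y703.CT Pool.Agent.Y153.CTRAM
open Pool.Agent.Y692.QS (Ei w nr toC)
open Pool.Agent.Y715.T.Gi Pool.Agent.Y715.T.Nr Pool.Agent.Y715.T.Df Pool.Agent.Y715.T.Ell

section

variable {F : Type} [Field F] [Algebra ℚ F] [CharZero F]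

/-- the point `(X : Y : Z)` of `Y Z (Y + Z) = X³` -/
noncomputable def pt (X Y Z : F) : Pt F :=
  if h : Z ≠ 0 ∧ (Y / Z) ^ 2 + Y / Z = (X / Z) ^ 3 then
    .some (X / Z) (Y / Z) ((isE F).nons h.2) else 0

lemma eq_aff {X Y Z : F} (hZ : Z ≠ 0) (he : Y * Z * (Y + Z) = X ^ 3) :
    (Y / Z) ^ 2 + Y / Z = (X / Z) ^ 3 := by
  field_simp
  linear_combination he

lemma pt_some {X Y Z : F} (hZ : Z ≠ 0) (he : Y * Z * (Y + Z) = X ^ 3) :
    ∃ h : (W0.baseChange F).toAffine.Nonsingular (X / Z) (Y / Z),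
      pt X Y Z = .some (X / Z) (Y / Z) h :=
  ⟨(isE F).nons (eq_aff hZ he), dif_pos ⟨hZ, eq_aff hZ he⟩⟩

lemma pt_zero (X Y : F) : pt X Y 0 = 0 := dif_neg fun h => h.1 rfl

lemma pt_shift {X Y Z : F} (he : Y * Z * (Y + Z) = X ^ 3) (hne : Y ≠ 0 ∨ Z ≠ 0) :
    pt X (-(Y + Z)) Y = pt X Y Z - T0 (isE F) := by
  have he' : -(Y + Z) * Y * (-(Y + Z) + Y) = X ^ 3 := by linear_combination he
  obtain ⟨hT', eT⟩ := T0_neg (isE F)
  by_cases hZ : Z = 0
  · subst hZ
    have hY : Y ≠ 0 := by
      rcases hne with h | h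
      · exact h
      · exact absurd rfl h
    have hX : X = 0 := by
      have h1 : X ^ 3 = 0 := by linear_combination -he
      exact pow_eq_zero_iff three_ne_zero |>.1 h1
    obtain ⟨h, e⟩ := pt_some hY he'
    rw [pt_zero, zero_sub, eT, e, Affine.Point.some.injEq]
    constructor
    · rw [hX, zero_div]
    · field_simp
      ring
  · by_cases hY : Y = 0
    · subst hY
      have hX : X = 0 := by
        have h1 : X ^ 3 = 0 := by linear_combination -he
        exact pow_eq_zero_iff three_ne_zero |>.1 h1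
      obtain ⟨h, e⟩ := pt_some hZ he
      have e1 : pt X 0 Z = T0 (isE F) := by
        rw [e]
        unfold T0
        rw [Affine.Point.some.injEq]
        exact ⟨by rw [hX, zero_div], zero_div _⟩
      rw [pt_zero, e1, sub_self]
    · obtain ⟨h, e⟩ := pt_some hZ he
      obtain ⟨h', e'⟩ := pt_some hY he'
      by_cases hX : X = 0
      · have hYZ : Y + Z = 0 := by
          have h1 : Y * Z * (Y + Z) = 0 := by rw [he, hX]; ring
          exact (mul_eq_zero.1 h1).resolve_left (mul_ne_zero hY hZ)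
        have e1 : pt X Y Z = -T0 (isE F) := by
          rw [e, eT, Affine.Point.some.injEq]
          refine ⟨by rw [hX, zero_div], ?_⟩
          rw [div_eq_iff hZ]
          linear_combination hYZ
        have e2 : pt X (-(Y + Z)) Y = T0 (isE F) := by
          rw [e']
          unfold T0
          rw [Affine.Point.some.injEq]
          refine ⟨by rw [hX, zero_div], ?_⟩
          rw [hYZ, neg_zero, zero_div]
        rw [e1, e2]
        have h3 := T0_add3 (isE F)
        have h4 : T0 (isE F) + T0 (isE F) + T0 (isE F) = 0 := by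
          rw [← h3]; abel
        have h5 : -T0 (isE F) - T0 (isE F) = T0 (isE F) -
            (T0 (isE F) + T0 (isE F) + T0 (isE F)) := by abel
        rw [h5, h4, sub_zero]
      · have hx : X / Z ≠ 0 := div_ne_zero hX hZ
        have hn := (isE F).neg_nons h
        have en := (isE F).neg_eq h hn
        obtain ⟨h1, e1⟩ := add_T0 (isE F) hn hx
        have hn1 := (isE F).neg_nons h1
        have en1 := (isE F).neg_eq h1 hn1
        have e3 : pt X Y Z - T0 (isE F) = -(-pt X Y Z + T0 (isE F)) := by abel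
        rw [e3, e, en, e1, en1, e', Affine.Point.some.injEq]
        constructor
        · field_simp
          linear_combination (-1 : F) * he
        · have h2 : (-(-(Y / Z) - 1)) / (X / Z) ^ 3 = Z / Y := by
            rw [← eq_aff hZ he]
            have h3 : Y + Z ≠ 0 := by
              intro h0
              apply hX
              have h4 : X ^ 3 = 0 := by rw [← he, h0, mul_zero]
              exact pow_eq_zero_iff three_ne_zero |>.1 h4
            field_simp
            ring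
          rw [h2]
          field_simp
          ring

lemma pt_jj {I : F} (hI : I ^ 2 + I + 1 = 0) (c : ZMod 3) {X Y Z : F}
    (he : Y * Z * (Y + Z) = X ^ 3) : jj hI c (pt X Y Z) = pt (I ^ c.val * X) Y Z := by
  have hI3 : I ^ 3 = 1 := by linear_combination (I - 1) * hI
  have key : ∀ X : F, Y * Z * (Y + Z) = X ^ 3 → im (isE F) hI (pt X Y Z) = pt (I * X) Y Z := by
    intro X he
    by_cases hZ : Z = 0
    · subst hZ
      rw [pt_zero, pt_zero, map_zero]
    · have he' : Y * Z * (Y + Z) = (I * X) ^ 3 := by rw [mul_pow, hI3, one_mul, he]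
      obtain ⟨h, e⟩ := pt_some hZ he
      obtain ⟨h', e'⟩ := pt_some hZ he'
      rw [e, e', im_some, Affine.Point.some.injEq]
      exact ⟨by ring, rfl⟩
  rcases z3 c with rfl | rfl | rfl
  · rw [jj_zero, ZMod.val_zero, pow_zero, one_mul]
  · rw [jj_one, ZMod.val_one, pow_one, key X he]
  · rw [jj_neg_one, val_neg_one', key X he,
      key (I * X) (by rw [mul_pow, hI3, one_mul, he])]
    congr 1
    ring

lemma pt_map {L : Type} [Field L] [Algebra ℚ L] [CharZero L] (φ : F →ₐ[ℚ] L) {X Y Z : F}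
    (he : Y * Z * (Y + Z) = X ^ 3) : pm φ (pt X Y Z) = pt (φ X) (φ Y) (φ Z) := by
  by_cases hZ : Z = 0
  · subst hZ
    rw [map_zero, pt_zero, pt_zero, pm_zero]
  · have hZ' : φ Z ≠ 0 := (map_ne_zero φ).2 hZ
    have he' : φ Y * φ Z * (φ Y + φ Z) = φ X ^ 3 := by
      rw [← map_mul, ← map_add, ← map_mul, he, map_pow]
    obtain ⟨h, e⟩ := pt_some hZ he
    obtain ⟨h', e'⟩ := pt_some hZ' he'
    rw [e, e', pm_some, Affine.Point.some.injEq]
    exact ⟨map_div₀ _ _ _, map_div₀ _ _ _⟩

end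

/-- CT-PT -/
theorem t_PT : S_PT := by
  intro i₀ hi B D hB hD u a hT h hK p _ ι hsol
  obtain ⟨s, t, r, hS⟩ := hsol
  have hI := iota_sq' hi ι
  obtain ⟨I, hIe⟩ : ∃ I, I = ι i₀ := ⟨_, rfl⟩
  have hI' : I ^ 2 + I + 1 = 0 := by rw [hIe]; exact hI
  have hI3 : I ^ 3 = 1 := by linear_combination (I - 1) * hI'
  obtain ⟨b₀, hb₀⟩ := IsAlgClosed.exists_pow_nat_eq (ev i₀ hi B) (n := 3) (by norm_num)
  have hKb := hK b₀ hb₀
  obtain ⟨b, hb⟩ : ∃ b, b = ι b₀ := ⟨_, rfl⟩
  obtain ⟨U, hU⟩ : ∃ U, U = ι u := ⟨_, rfl⟩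
  have hb3 : b ^ 3 = ev (ι i₀) hI B := by
    rw [hb, ← map_pow, hb₀, iota_ev]
  have hU3 : U ^ 3 = ev (ι i₀) hI D := by
    rw [hU, ← map_pow, hT.cube, iota_ev]
  have hB0 : ev (ι i₀) hI B ≠ 0 := ev_ne hI hB
  have hb0 : b ≠ 0 := by
    rintro h0
    apply hB0
    rw [← hb3, h0]
    ring
  have hU0 : U ≠ 0 := by
    rintro h0
    apply ev_ne hI hD
    rw [← hU3, h0]
    ring
  have heq := hS.eq
  rw [← hb3, ← hU3] at heq
  obtain ⟨S, hSd⟩ : ∃ S, S = s / b := ⟨_, rfl⟩
  obtain ⟨T, hTd⟩ : ∃ T, T = b * t := ⟨_, rfl⟩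
  obtain ⟨X, hX⟩ : ∃ X, X = -(U * r) := ⟨_, rfl⟩
  have hsS : s = b * S := by rw [hSd]; field_simp
  have hcube : S ^ 3 - T ^ 3 = -X ^ 3 := by
    have h1 : b ^ 3 * (S ^ 3 - T ^ 3) = b ^ 3 * (-X ^ 3) := by
      rw [hsS] at heq
      rw [hX, hTd]
      linear_combination heq
    exact mul_left_cancel₀ (pow_ne_zero 3 hb0) h1
  obtain ⟨Y, hY⟩ : ∃ Y, Y = I * (S - I * T) := ⟨_, rfl⟩
  obtain ⟨Z, hZ⟩ : ∃ Z, Z = I ^ 2 * (S - I ^ 2 * T) := ⟨_, rfl⟩
  have hYZ : Y + Z = -(S - T) := by
    rw [hY, hZ]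
    linear_combination (S - T) * hI' - I * T * hI3
  have he : Y * Z * (Y + Z) = X ^ 3 := by
    have h1 : Y * Z = I ^ 3 * ((S - I * T) * (S - I ^ 2 * T)) := by rw [hY, hZ]; ring
    have h2 : (S - I * T) * (S - I ^ 2 * T) = S ^ 2 + S * T + T ^ 2 := by
      linear_combination T ^ 2 * hI3 - S * T * hI'
    rw [hYZ, h1, hI3, h2]
    linear_combination -hcube
  have hne : Y ≠ 0 ∨ Z ≠ 0 := by
    by_contra hcon
    push Not at hcon
    obtain ⟨hY0, hZ0⟩ := hcon
    have hST : S - T = 0 := by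
      have : Y + Z = 0 := by rw [hY0, hZ0, add_zero]
      rw [hYZ] at this
      exact neg_eq_zero.1 this
    have hI0 : I ≠ 0 := by
      rintro h0
      rw [h0] at hI3
      norm_num at hI3
    have h1 : S - I * T = 0 := by
      rw [hY] at hY0
      exact (mul_eq_zero.1 hY0).resolve_left hI0
    have h2 : (I - 1) * T = 0 := by linear_combination hST - h1
    have hI1 : I - 1 ≠ 0 := by
      intro h0
      have h3 : I = 1 := sub_eq_zero.1 h0
      rw [h3] at hI'
      have h4 : (3 : PadicAlgCl p) = 0 := by linear_combination hI'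
      exact three_ne_zero h4
    have hT0 : T = 0 := (mul_eq_zero.1 h2).resolve_left hI1
    have hS0 : S = 0 := by rw [hT0, sub_zero] at hST; exact hST
    have hX0 : X = 0 := by
      have h3 : X ^ 3 = 0 := by rw [← he, hY0, zero_mul, zero_mul]
      exact pow_eq_zero_iff three_ne_zero |>.1 h3
    rcases hS.ne with h3 | h3 | h3
    · exact h3 (by rw [hsS, hS0, mul_zero])
    · rw [hTd] at hT0
      exact h3 ((mul_eq_zero.1 hT0).resolve_left hb0)
    · rw [hX, neg_eq_zero] at hX0
      exact h3 ((mul_eq_zero.1 hX0).resolve_left hU0)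
  refine ⟨-pt X Y Z, ?_⟩
  intro τ σ hc
  -- the action
  have hτI : τ I = I := by rw [hIe]; exact hc.fix
  obtain ⟨hs, ht, hr⟩ := hS.fixed τ hc.fix
  have hτb : τ b = I ^ (h σ).val * b := by
    rw [hb, hc, hKb σ, map_mul, map_pow, ← hIe]
  have hτU : τ U = I ^ (-a σ).val * U := by
    rw [hU, hc, hT.act σ, map_mul, map_pow, ← hIe]
  have hτX : I ^ (a σ).val * τ X = X := by
    rw [hX, map_neg, map_mul, hτU, hr]
    have h1 : I ^ (a σ).val * I ^ (-a σ).val = 1 := by
      rcases z3 (a σ) with h2 | h2 | h2 <;> rw [h2]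
      · rw [neg_zero, ZMod.val_zero, pow_zero, mul_one]
      · rw [ZMod.val_one, val_neg_one']
        linear_combination hI3
      · rw [neg_neg, ZMod.val_one, val_neg_one']
        linear_combination hI3
    linear_combination (-(U * r)) * h1
  have hτb0 : τ b ≠ 0 := (map_ne_zero τ).2 hb0
  have hτS : τ S * I ^ (h σ).val = S := by
    rw [hSd, map_div₀, hs]
    rw [hτb] at hτb0 ⊢
    have hI0 : I ^ (h σ).val ≠ 0 := left_ne_zero_of_mul hτb0
    field_simp
  have hτT : τ T = I ^ (h σ).val * T := by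
    rw [hTd, map_mul, ht, hτb]
    ring
  have hτY : τ Y = I * (τ S - I * τ T) := by
    rw [hY, map_mul, map_sub, map_mul, hτI]
  have hτZ : τ Z = I ^ 2 * (τ S - I ^ 2 * τ T) := by
    rw [hZ, map_mul, map_sub, map_mul, map_pow, hτI]
  have heτ : τ Y * τ Z * (τ Y + τ Z) = τ X ^ 3 := by
    rw [← map_mul, ← map_add, ← map_mul, he, map_pow]
  have hmain : jj hI (a σ) (pm (lh τ) (pt X Y Z)) = pt X Y Z - tt _ (h σ) := by
    have hI'' : jj hI (a σ) (pm (lh τ) (pt X Y Z)) = jj hI' (a σ) (pm (lh τ) (pt X Y Z)) := by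
      subst hIe
      rfl
    rw [hI'', pt_map _ he, lh_apply, lh_apply, lh_apply, pt_jj hI' _ heτ, hτX]
    rcases z3 (h σ) with h2 | h2 | h2
    · rw [h2, ZMod.val_zero, pow_zero] at hτS hτT
      rw [mul_one] at hτS
      rw [one_mul] at hτT
      rw [hτY, hτZ, hτS, hτT, ← hY, ← hZ, h2, tt_zero, sub_zero]
    · rw [h2, ZMod.val_one, pow_one] at hτS hτT
      have e1 : τ Y = -(Y + Z) := by
        rw [hτY, hτT, hYZ]
        linear_combination hτS - T * hI3
      have e2 : τ Z = Y := by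
        rw [hτZ, hτT, hY]
        linear_combination I * hτS - I ^ 2 * T * hI3
      rw [e1, e2, h2, tt_one, pt_shift he hne]
    · rw [h2, val_neg_one'] at hτS hτT
      have e1 : τ Y = Z := by
        rw [hτY, hτT, hZ]
        linear_combination (I ^ 2) * hτS - I * τ S * hI3
      have e2 : τ Z = -(Y + Z) := by
        rw [hτZ, hτT, hYZ]
        linear_combination hτS - (I ^ 3 + 1) * T * hI3
      have he2 : Z * (-(Y + Z)) * (Z + -(Y + Z)) = X ^ 3 := by linear_combination he
      have hne2 : Z ≠ 0 ∨ -(Y + Z) ≠ 0 := by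
        by_contra hcon
        push Not at hcon
        obtain ⟨h3, h4⟩ := hcon
        rcases hne with h5 | h5
        · apply h5
          linear_combination -h4 - h3
        · exact h5 h3
      have h6 := pt_shift he2 hne2
      have e3 : -(Z + -(Y + Z)) = Y := by ring
      rw [e3] at h6
      rw [e1, e2, h2, tt_neg_one, h6]
      abel
  have hneg : jj hI (a σ) (pm (lh τ) (-pt X Y Z)) = -jj hI (a σ) (pm (lh τ) (pt X Y Z)) := by
    rw [map_neg, ← zero_sub, jj_sub]
    have : jj hI (a σ) (0 : Pt (PadicAlgCl p)) = 0 := by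
      have h1 := jj_sub hI (a σ) (0 : Pt (PadicAlgCl p)) 0
      rw [sub_self, sub_self] at h1
      exact h1
    rw [this, zero_sub]
  rw [hneg, hmain]
  abel

end Pool.Agent.Y674.CT
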